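import Mathlib
import Pool.Agent.N576.MX.Defs

set_option autoImplicit false

/-!
# Three equal values with fixed suffixes lie on a line (project MX of helper576; helper568)
-/

namespace Pool.Agent.N568.MX

open Pool.Agent.H499R2 Pool.Agent.TH880.MK Pool.Agent.N576.MK Pool.Agent.N576.MX

lemma pt_true (k : ℕ) (l : List Bool) :
    pt (List.replicate k true ++ l) = ((pt l).1 + k * (pt l).2, (pt l).2) := by
  induction k with
  | zero => simp
  | succ k ih =>
    rw [List.replicate_succ, List.cons_append, pt, ih]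
    refine Prod.ext ?_ rfl
    show (pt l).1 + k * (pt l).2 + (pt l).2 = (pt l).1 + (k + 1) * (pt l).2
    ring

lemma pt_false (k : ℕ) (l : List Bool) :
    pt (List.replicate k false ++ l) = ((pt l).1, (pt l).2 + k * (pt l).1) := by
  induction k with
  | zero => simp
  | succ k ih =>
    rw [List.replicate_succ, List.cons_append, pt, ih]
    refine Prod.ext rfl ?_
    show (pt l).1 + ((pt l).2 + k * (pt l).1) = (pt l).2 + (k + 1) * (pt l).1
    ring

/-- the values along a run are affine up to a small error -/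
lemma key (H : ℕ) (g : List Bool) (c : Bool) (s : List Bool) (m1 m3 : ℕ) (hH : 1 ≤ H) (h13 : m1 ≤ m3)
    (h3 : sz (ofr g c m3 s) ≤ H) (hE : (10 : ℝ) ^ 6 * H ^ 3 ≤ Real.exp (FF (rn g c m1))) :
    ∃ A U : ℝ, 3 / 4 ≤ U ∧ ((m3 : ℝ) - m1 ≤ H) ∧ ∀ m : ℕ, m1 ≤ m → m ≤ m3 →
      A + ((m : ℝ) - m1) * (sz s * U) - 1 / (10 ^ 9 * H) ≤ FF (ofr g c m s) ∧
      FF (ofr g c m s) ≤ A + ((m : ℝ) - m1) * (sz s * U) := by
  obtain ⟨K, hK⟩ : ∃ K, K = rn g c m1 := ⟨_, rfl⟩
  have hv := valid_root.desc K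
  obtain ⟨X, hX⟩ : ∃ X, X = desc root K := ⟨_, rfl⟩
  rw [← hX] at hv
  have hof : ∀ k : ℕ, ofr g c (m1 + k) s = K ++ (List.replicate k c ++ (!c) :: s) := by
    intro k
    rw [hK]
    unfold ofr rn
    rw [List.replicate_add]
    simp only [List.append_assoc]
  have hpre : ∀ k : ℕ, K <+: ofr g c (m1 + k) s := by
    intro k
    rw [hof]
    exact List.prefix_append _ _
  have hcoord : ∀ k : ℕ, cu X (zz (ofr g c (m1 + k) s)) =
        (pt (List.replicate k c ++ (!c) :: s)).1 ∧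
      cv X (zz (ofr g c (m1 + k) s)) = (pt (List.replicate k c ++ (!c) :: s)).2 := by
    intro k
    rw [hof, zz_append, ← hX]
    exact cu_vec hv _
  have hps := pt_pos s
  -- the coordinates
  have hell : ∃ A U : ℝ, 3 / 4 ≤ U ∧ (∀ k : ℕ, ell X (zz (ofr g c (m1 + k) s)) =
      A + (k : ℝ) * (sz s * U)) ∧ (∀ k : ℕ, k ≤ sz (ofr g c (m1 + k) s)) ∧
      ∀ k k' : ℕ, k ≤ k' → sz (ofr g c (m1 + k) s) ≤ sz (ofr g c (m1 + k') s) := by
    have hp := hv.p1
    have hq := hv.q1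
    cases c
    · refine ⟨sz s * al X + (pt s).2 * be X, be X, be_lower hv, ?_, ?_, ?_⟩
      · intro k
        obtain ⟨h1, h2⟩ := hcoord k
        rw [pt_false] at h1 h2
        unfold ell
        rw [h1, h2]
        simp only [Bool.not_false, pt]
        unfold sz
        push_cast
        ring
      · intro k
        obtain ⟨h1, h2⟩ := hcoord k
        have h4 := sz_coord hv (ofr g false (m1 + k) s)
        rw [pt_false] at h1 h2
        rw [h1, h2] at h4
        simp only [Bool.not_false, pt] at h4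
        have h5 : sz (ofr g false (m1 + k) s) = ((pt s).1 + (pt s).2) * X.p +
            ((pt s).2 + k * ((pt s).1 + (pt s).2)) * X.q := by exact_mod_cast h4
        rw [h5]
        have h6 : k * 1 ≤ k * ((pt s).1 + (pt s).2) := Nat.mul_le_mul_left _ (by omega)
        have h7 : ((pt s).2 + k * ((pt s).1 + (pt s).2)) * 1 ≤
            ((pt s).2 + k * ((pt s).1 + (pt s).2)) * X.q := Nat.mul_le_mul_left _ hq
        omega
      · intro k k' hkk
        have h5 : ∀ k : ℕ, sz (ofr g false (m1 + k) s) = ((pt s).1 + (pt s).2) * X.p +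
            ((pt s).2 + k * ((pt s).1 + (pt s).2)) * X.q := by
          intro k
          obtain ⟨h1, h2⟩ := hcoord k
          have h4 := sz_coord hv (ofr g false (m1 + k) s)
          rw [pt_false] at h1 h2
          rw [h1, h2] at h4
          simp only [Bool.not_false, pt] at h4
          exact_mod_cast h4
        rw [h5, h5]
        gcongr
    · refine ⟨(pt s).1 * al X + sz s * be X, al X, al_lower hv, ?_, ?_, ?_⟩
      · intro k
        obtain ⟨h1, h2⟩ := hcoord k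
        rw [pt_true] at h1 h2
        unfold ell
        rw [h1, h2]
        simp only [Bool.not_true, pt]
        unfold sz
        push_cast
        ring
      · intro k
        obtain ⟨h1, h2⟩ := hcoord k
        have h4 := sz_coord hv (ofr g true (m1 + k) s)
        rw [pt_true] at h1 h2
        rw [h1, h2] at h4
        simp only [Bool.not_true, pt] at h4
        have h5 : sz (ofr g true (m1 + k) s) = ((pt s).1 + k * ((pt s).1 + (pt s).2)) * X.p +
            ((pt s).1 + (pt s).2) * X.q := by exact_mod_cast h4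
        rw [h5]
        have h6 : k * 1 ≤ k * ((pt s).1 + (pt s).2) := Nat.mul_le_mul_left _ (by omega)
        have h7 : ((pt s).1 + k * ((pt s).1 + (pt s).2)) * 1 ≤
            ((pt s).1 + k * ((pt s).1 + (pt s).2)) * X.p := Nat.mul_le_mul_left _ hp
        omega
      · intro k k' hkk
        have h5 : ∀ k : ℕ, sz (ofr g true (m1 + k) s) = ((pt s).1 + k * ((pt s).1 + (pt s).2)) * X.p +
            ((pt s).1 + (pt s).2) * X.q := by
          intro k
          obtain ⟨h1, h2⟩ := hcoord k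
          have h4 := sz_coord hv (ofr g true (m1 + k) s)
          rw [pt_true] at h1 h2
          rw [h1, h2] at h4
          simp only [Bool.not_true, pt] at h4
          exact_mod_cast h4
        rw [h5, h5]
        gcongr
  obtain ⟨A, U, hU, hA, hk, hmono⟩ := hell
  obtain ⟨k3, rfl⟩ := Nat.exists_eq_add_of_le h13
  have hH1 : (1 : ℝ) ≤ H := by exact_mod_cast hH
  refine ⟨A, U, hU, ?_, ?_⟩
  · have h4 : (k3 : ℝ) ≤ H := by exact_mod_cast (hk k3).trans h3
    push_cast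
    linarith
  · intro m hm hm3
    obtain ⟨k, rfl⟩ := Nat.exists_eq_add_of_le hm
    have hkk : k ≤ k3 := by omega
    have hs : sz (ofr g c (m1 + k) s) ≤ H := (hmono k k3 hkk).trans h3
    obtain ⟨f1, f2⟩ := F_closed K _ (inC_of_prefix (hpre k))
    rw [← hX, hA k] at f1 f2
    have e0 : (((m1 + k : ℕ) : ℝ) - m1) = k := by push_cast; ring
    rw [e0]
    refine ⟨?_, f2⟩
    have hd := dl_exp (List.prefix_refl K)
    rw [← hX] at hd
    have hdp := dl_pos hv
    have he : Real.exp (-2 * FF K) ≤ 1 / (10 ^ 12 * H ^ 6) := by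
      have e1 : Real.exp (-2 * FF K) = 1 / Real.exp (FF K) ^ 2 := by
        rw [← Real.exp_nat_mul, one_div, ← Real.exp_neg]
        congr 1
        push_cast
        ring
      rw [e1]
      rw [← hK] at hE
      have h5 : ((10 : ℝ) ^ 6 * H ^ 3) ^ 2 ≤ Real.exp (FF K) ^ 2 :=
        pow_le_pow_left₀ (by positivity) hE 2
      have h6 : ((10 : ℝ) ^ 6 * H ^ 3) ^ 2 = 10 ^ 12 * H ^ 6 := by ring
      rw [h6] at h5
      exact one_div_le_one_div_of_le (by positivity) h5
    have hs' : (sz (ofr g c (m1 + k) s) : ℝ) ≤ H := by exact_mod_cast hs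
    have h7 : 2 * dl X * sz (ofr g c (m1 + k) s) ≤ 2 * (81 * (1 / (10 ^ 12 * (H : ℝ) ^ 6))) * H := by
      apply mul_le_mul _ hs' (by positivity) (by positivity)
      linarith
    have h8 : 2 * (81 * (1 / (10 ^ 12 * (H : ℝ) ^ 6))) * H ≤ 1 / (10 ^ 9 * H) := by
      have e2 : 2 * (81 * (1 / (10 ^ 12 * (H : ℝ) ^ 6))) * H = (162 / 10 ^ 3) * (1 / (10 ^ 9 * (H : ℝ) ^ 5)) := by
        field_simp
        ring
      rw [e2]
      have h9 : (H : ℝ) ≤ H ^ 5 := by
        calc (H : ℝ) = H ^ 1 := (pow_one _).symm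
          _ ≤ H ^ 5 := pow_le_pow_right₀ hH1 (by norm_num)
      have h10 : 1 / (10 ^ 9 * (H : ℝ) ^ 5) ≤ 1 / (10 ^ 9 * H) :=
        one_div_le_one_div_of_le (by positivity) (by linarith)
      have h11 : 0 ≤ 1 / (10 ^ 9 * (H : ℝ) ^ 5) := by positivity
      linarith
    linarith

/-- three equal values with fixed suffixes lie on a line -/
theorem aff : AFF := by
  intro H g g' c c' s s' m1 m2 m3 t1 t2 t3 hH hm12 hm23 ht12 ht23 f1 f2 f3 s3 s3' e3 e3'
  obtain ⟨A, U, hU, hM, hA⟩ := key H g c s m1 m3 hH (by omega) s3 e3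
  obtain ⟨A', U', hU', hT, hA'⟩ := key H g' c' s' t1 t3 hH (by omega) s3' e3'
  obtain ⟨a1, b1⟩ := hA m1 (by omega) (by omega)
  obtain ⟨a2, b2⟩ := hA m2 (by omega) (by omega)
  obtain ⟨a3, b3⟩ := hA m3 (by omega) (by omega)
  obtain ⟨a1', b1'⟩ := hA' t1 (by omega) (by omega)
  obtain ⟨a2', b2'⟩ := hA' t2 (by omega) (by omega)
  obtain ⟨a3', b3'⟩ := hA' t3 (by omega) (by omega)
  rw [← f1] at a1' b1'
  rw [← f2] at a2' b2'
  rw [← f3] at a3' b3'
  rw [sub_self, zero_mul, add_zero] at a1 b1 a1' b1'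
  have hH1 : (1 : ℝ) ≤ H := by exact_mod_cast hH
  have hm2 : (0 : ℝ) ≤ (m2 : ℝ) - m1 := by
    have : (m1 : ℝ) ≤ m2 := by exact_mod_cast hm12.le
    linarith
  have hm23' : (m2 : ℝ) - m1 ≤ m3 - m1 := by
    have : (m2 : ℝ) ≤ m3 := by exact_mod_cast hm23.le
    linarith
  obtain ⟨ε, hε⟩ : ∃ ε : ℝ, ε = 1 / (10 ^ 9 * H) := ⟨_, rfl⟩
  have hε0 : 0 < ε := by rw [hε]; positivity
  have hεH : ε * H = 1 / 10 ^ 9 := by rw [hε]; field_simp
  rw [← hε] at a1 a2 a3 a1' a2' a3'
  obtain ⟨W, hW⟩ : ∃ W : ℝ, W = sz s * U := ⟨_, rfl⟩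
  obtain ⟨W', hW'⟩ : ∃ W' : ℝ, W' = sz s' * U' := ⟨_, rfl⟩
  rw [← hW] at a2 a3 b2 b3
  rw [← hW'] at a2' a3' b2' b3'
  have hW1 : 3 / 2 ≤ W' := by
    have h1 : (2 : ℝ) ≤ sz s' := by
      have := pt_pos s'
      have h2 : 2 ≤ sz s' := by unfold sz; omega
      exact_mod_cast h2
    rw [hW']
    nlinarith
  obtain ⟨M2, hM2⟩ : ∃ x : ℝ, x = (m2 : ℝ) - m1 := ⟨_, rfl⟩
  obtain ⟨M3, hM3⟩ : ∃ x : ℝ, x = (m3 : ℝ) - m1 := ⟨_, rfl⟩
  obtain ⟨T2, hT2⟩ : ∃ x : ℝ, x = (t2 : ℝ) - t1 := ⟨_, rfl⟩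
  obtain ⟨T3, hT3⟩ : ∃ x : ℝ, x = (t3 : ℝ) - t1 := ⟨_, rfl⟩
  rw [← hM2] at a2 b2 hm2 hm23'
  rw [← hM3] at a3 b3 hM hm23'
  rw [← hT2] at a2' b2'
  rw [← hT3] at a3' b3'
  have hD2 : |M2 * W - T2 * W'| ≤ 2 * ε := by
    rw [abs_le]
    constructor <;> linarith
  have hD3 : |M3 * W - T3 * W'| ≤ 2 * ε := by
    rw [abs_le]
    constructor <;> linarith
  have hkey : (M3 * T2 - M2 * T3) * W' = M2 * (M3 * W - T3 * W') - M3 * (M2 * W - T2 * W') := by ring
  have hb : |(M3 * T2 - M2 * T3) * W'| ≤ H * (2 * ε) + H * (2 * ε) := by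
    rw [hkey]
    refine (abs_sub _ _).trans (add_le_add ?_ ?_)
    · rw [abs_mul, abs_of_nonneg hm2]
      exact mul_le_mul (hm23'.trans hM) hD3 (abs_nonneg _) (by positivity)
    · rw [abs_mul, abs_of_nonneg (hm2.trans hm23')]
      exact mul_le_mul hM hD2 (abs_nonneg _) (by positivity)
  have hlt : |M3 * T2 - M2 * T3| < 1 := by
    rw [abs_mul, abs_of_pos (by linarith : (0 : ℝ) < W')] at hb
    have h1 : |M3 * T2 - M2 * T3| * (3 / 2) ≤ |M3 * T2 - M2 * T3| * W' :=
      mul_le_mul_of_nonneg_left hW1 (abs_nonneg _)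
    have h2 : H * (2 * ε) + H * (2 * ε) = 4 * (ε * H) := by ring
    rw [h2, hεH] at hb
    norm_num at hb
    linarith
  have hint : |((m3 : ℤ) - m1) * ((t2 : ℤ) - t1) - ((m2 : ℤ) - m1) * ((t3 : ℤ) - t1)| < 1 := by
    have h1 : ((|((m3 : ℤ) - m1) * ((t2 : ℤ) - t1) - ((m2 : ℤ) - m1) * ((t3 : ℤ) - t1)| : ℤ) : ℝ) < 1 := by
      push_cast
      rw [← hM2, ← hM3, ← hT2, ← hT3]
      exact hlt
    exact_mod_cast h1
  have h0 := Int.abs_lt_one_iff.1 hint
  linarith

end Pool.Agent.N568.MX
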